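import Mathlib

set_option autoImplicit false

namespace Pool.Agent.P.MP_5517c4_pr

open scoped Classical in
/-- One synchronous step of the Greenberg-Hastings model with `κ` colours and threshold `θ`. -/
noncomputable def ghmStep {V : Type} (G : SimpleGraph V) (κ θ : ℕ) (γ : V → ZMod κ) (v : V) :
    ZMod κ :=
  if γ v ≠ 0 then γ v + 1 else if θ ≤ {u | G.Adj v u ∧ γ u = 1}.ncard then 1 else 0

/-- One synchronous step of the cyclic cellular automaton with `κ` colours and threshold `θ`. -/
noncomputable def ccaStep {V : Type} (G : SimpleGraph V) (κ θ : ℕ) (ξ : V → ZMod κ) (v : V) :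
    ZMod κ :=
  if θ ≤ {u | G.Adj v u ∧ ξ u = ξ v + 1}.ncard then ξ v + 1 else ξ v

end Pool.Agent.P.MP_5517c4_pr
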