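import Mathlib

set_option autoImplicit false
set_option linter.unusedSectionVars false

namespace Pool.Agent.P.MP_5517c4_pr

open Finset MeasureTheory ProbabilityTheory
open scoped Classical

section tree
variable {V : Type} {G : SimpleGraph V} {d : ℕ}

/-- the neighbours of `w` other than `p` -/
noncomputable def ch (G : SimpleGraph V) (d : ℕ) (p w : V) : Fin d → V :=
  if h : ∃ f : Fin d → V, Function.Injective f ∧ Set.range f = G.neighborSet w \ {p}
  then h.choose else fun _ => w

theorem ch_spec (hd : ∀ v, (G.neighborSet v).ncard = d + 1) {p w : V} (h : G.Adj p w) :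
    Function.Injective (ch G d p w) ∧ Set.range (ch G d p w) = G.neighborSet w \ {p} := by
  have h1 : ∃ f : Fin d → V, Function.Injective f ∧ Set.range f = G.neighborSet w \ {p} := by
    have hf : (G.neighborSet w).Finite := Set.finite_of_ncard_ne_zero (by rw [hd]; omega)
    have : Finite (G.neighborSet w \ {p} : Set V) := hf.sdiff
    have h2 : Nat.card (G.neighborSet w \ {p} : Set V) = d := by
      rw [Nat.card_coe_set_eq, Set.ncard_sdiff_singleton_of_mem (s := G.neighborSet w) h.symm, hd]; rfl
    refine ⟨fun i => (Finite.equivFinOfCardEq h2).symm i,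
      Subtype.val_injective.comp (Equiv.injective _), ?_⟩
    ext x
    exact ⟨by rintro ⟨i, rfl⟩; exact Subtype.property _,
      fun hx => ⟨Finite.equivFinOfCardEq h2 ⟨x, hx⟩, by simp⟩⟩
  rw [ch, dif_pos h1]
  exact h1.choose_spec

theorem ch_adj (hd : ∀ v, (G.neighborSet v).ncard = d + 1) {p w : V} (h : G.Adj p w) (i : Fin d) :
    G.Adj w (ch G d p w i) ∧ ch G d p w i ≠ p :=
  (ch_spec hd h).2.subset ⟨i, rfl⟩

theorem ncard_nbr (hd : ∀ v, (G.neighborSet v).ncard = d + 1) {p w : V} (h : G.Adj p w)
    (P : V → Prop) [DecidablePred P] : {u | G.Adj w u ∧ P u}.ncard =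
      (if P p then 1 else 0) + (univ.filter fun i => P (ch G d p w i)).card := by
  have h1 : {u | G.Adj w u ∧ P u} \ {p} =
      ch G d p w '' (univ.filter fun i => P (ch G d p w i) : Finset _) := by
    ext u
    constructor
    · rintro ⟨⟨h2, h3⟩, h4⟩
      obtain ⟨i, rfl⟩ := (ch_spec hd h).2.superset ⟨h2, h4⟩
      exact ⟨i, by simpa using h3, rfl⟩
    · rintro ⟨i, hi, rfl⟩
      exact ⟨⟨(ch_adj hd h i).1, by simpa using hi⟩, (ch_adj hd h i).2⟩
  have hf : {u | G.Adj w u ∧ P u}.Finite :=
    (Set.finite_of_ncard_ne_zero (s := G.neighborSet w) (by rw [hd]; omega)).subset fun _ h => h.1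
  have h2 := congrArg Set.ncard h1
  rw [Set.ncard_image_of_injective _ (ch_spec hd h).1, Set.ncard_coe_finset] at h2
  rw [← h2]
  split_ifs with h3
  · rw [add_comm, Set.ncard_sdiff_singleton_add_one (by exact ⟨h.symm, h3⟩) hf]
  · rw [zero_add, Set.sdiff_singleton_eq_self fun h => h3 h.2]

noncomputable def emb (G : SimpleGraph V) (d : ℕ) : V → V → List (Fin d) → V
  | _, w, [] => w
  | p, w, i :: l => emb G d w (ch G d p w i) l

theorem emb_path (ha : G.IsAcyclic) (hd : ∀ v, (G.neighborSet v).ncard = d + 1)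
    (l : List (Fin d)) : ∀ p w x, G.Adj p w → emb G d p w l = x →
      ∃ W : G.Walk p x, W.IsPath ∧ W.snd = w ∧ W.length = l.length + 1 := by
  induction l with
  | nil =>
    rintro p w x h rfl
    exact ⟨h.toWalk, SimpleGraph.Walk.IsPath.of_adj h, by simp [emb], rfl⟩
  | cons i l ih =>
    intro p w x h hx
    obtain ⟨W, h1, h2, h3⟩ := ih _ _ x (ch_adj hd h i).1 hx
    refine ⟨.cons h W, (SimpleGraph.Walk.cons_isPath_iff _ _).2 ⟨h1, fun hp => ?_⟩, by simp,
      by simp [h3]⟩
    exact (ch_adj hd h i).2 (h2.symm.trans (ha.eq_snd_of_adj_start h1 h.symm hp).symm)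

theorem emb_inj (ha : G.IsAcyclic) (hd : ∀ v, (G.neighborSet v).ncard = d + 1)
    (l : List (Fin d)) : ∀ p w l', G.Adj p w → emb G d p w l = emb G d p w l' → l = l' := by
  have key : ∀ {p x : V} {W W' : G.Walk p x}, W.IsPath → W'.IsPath → W = W' := fun h h' =>
    congrArg Subtype.val ((ha.subsingleton_path _ _).elim ⟨_, h⟩ ⟨_, h'⟩)
  induction l with
  | nil =>
    intro p w l' h he
    obtain ⟨W, h1, -, h3⟩ := emb_path ha hd [] p w _ h he
    obtain ⟨W', h1', -, h3'⟩ := emb_path ha hd l' p w _ h rfl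
    rw [key h1 h1', h3'] at h3
    exact (List.length_eq_zero_iff.1 (by simpa using h3)).symm
  | cons i l ih =>
    intro p w l' h he
    cases l' with
    | nil =>
      obtain ⟨W, h1, -, h3⟩ := emb_path ha hd _ p w _ h he
      obtain ⟨W', h1', -, h3'⟩ := emb_path ha hd [] p w _ h rfl
      rw [key h1 h1', h3'] at h3
      simp at h3
    | cons j l' =>
      obtain ⟨W, h1, h2, -⟩ := emb_path ha hd l _ _ _ (ch_adj hd h i).1 he
      obtain ⟨W', h1', h2', -⟩ := emb_path ha hd l' _ _ _ (ch_adj hd h j).1 rfl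
      rw [key h1 h1'] at h2
      obtain rfl : i = j := (ch_spec hd h).1 (h2.symm.trans h2')
      rw [ih _ _ l' (ch_adj hd h i).1 he]

theorem countable_of (hc : G.Connected) (hd : ∀ v, (G.neighborSet v).ncard = d + 1) :
    Countable V := by
  obtain ⟨o⟩ := hc.nonempty
  have h1 : ∀ n, {v | ∃ W : G.Walk v o, W.length = n}.Finite := by
    intro n
    induction n with
    | zero => exact (Set.finite_singleton o).subset fun v ⟨W, h⟩ => W.eq_of_length_eq_zero h
    | succ n ih =>
      refine (ih.biUnion fun v _ => Set.finite_of_ncard_ne_zero (s := G.neighborSet v)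
        (by rw [hd]; omega)).subset ?_
      rintro v ⟨W, h⟩
      cases W with
      | nil => simp at h
      | cons h' W => exact Set.mem_biUnion (x := _) ⟨W, by simpa using h⟩ h'.symm
  refine Set.countable_univ_iff.1 ((Set.countable_iUnion fun n => (h1 n).countable).mono ?_)
  intro v _
  obtain ⟨W⟩ := hc.preconnected v o
  exact Set.mem_iUnion.2 ⟨_, W, rfl⟩

theorem exists_adj (hd : ∀ v, (G.neighborSet v).ncard = d + 1) (w : V) : ∃ p, G.Adj p w := by
  obtain ⟨p, hp⟩ := Set.nonempty_of_ncard_ne_zero (s := G.neighborSet w) (by rw [hd]; omega)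
  exact ⟨p, hp.symm⟩

end tree

section law
variable {C : Type} [Fintype C] [Nonempty C] [MeasurableSpace C] [MeasurableSingletonClass C]

/-- uniform product measure -/
noncomputable def PP (ι C : Type) [MeasurableSpace C] : Measure (ι → C) :=
  Measure.infinitePi fun _ : ι => uniformOn (Set.univ : Set C)

instance (ι : Type) : IsProbabilityMeasure (PP ι C) := by unfold PP; infer_instance

theorem pull_le {V : Type} {G : SimpleGraph V} {d : ℕ} (ha : G.IsAcyclic)
    (hd : ∀ v, (G.neighborSet v).ncard = d + 1) {p w : V} (h : G.Adj p w)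
    {A : Set (List (Fin d) → C)} (hA : MeasurableSet A) :
    PP V C {ω | (fun l => ω (emb G d p w l)) ∈ A} = PP _ C A := by
  have h1 := Measure.map_infinitePi_infinitePi_of_inj
    (P := fun _ : V => uniformOn (Set.univ : Set C)) (f := emb G d p w)
    fun l l' => emb_inj ha hd l p w l' h
  rw [PP, PP, ← h1, Measure.map_apply (by fun_prop) hA]
  rfl

def bt (d : ℕ) : Option (Fin d) → Type
  | none => Unit
  | some _ => List (Fin d)

def bf {d : ℕ} : (Σ o, bt d o) → List (Fin d)
  | ⟨none, _⟩ => []
  | ⟨some i, l⟩ => i :: l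

theorem bf_inj {d : ℕ} : Function.Injective (bf (d := d)) := by
  rintro ⟨_ | i, l⟩ ⟨_ | j, l'⟩ h
  · rfl
  · simp [bf] at h
  · simp [bf] at h
  · obtain ⟨rfl, rfl⟩ := List.cons.inj h; rfl

theorem prod_law {d : ℕ} (c : C) {A : Fin d → Set (List (Fin d) → C)}
    (hA : ∀ i, MeasurableSet (A i)) :
    (PP _ C).real {σ | σ [] = c ∧ ∀ i, (fun l => σ (i :: l)) ∈ A i} =
      (Fintype.card C : ℝ)⁻¹ * ∏ i, (PP _ C).real (A i) := by
  have h1 := Measure.map_infinitePi_infinitePi_of_inj
    (P := fun _ : List (Fin d) => uniformOn (Set.univ : Set C)) (bf_inj (d := d))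
  have h2 := Measure.infinitePi_map_piCurry (X := fun (o : Option (Fin d)) (_ : bt d o) => C)
    (fun _ _ => uniformOn (Set.univ : Set C))
  let T : ∀ o : Option (Fin d), Set (bt d o → C) := fun o =>
    match o with
    | none => (fun τ => τ ()) ⁻¹' {c}
    | some i => A i
  have hT : ∀ o, MeasurableSet (T o) := by
    rintro (_ | i)
    · exact measurable_pi_apply _ (measurableSet_singleton c)
    · exact hA i
  have h3 := Measure.infinitePi_pi (fun o : Option (Fin d) => Measure.infinitePi
    fun _ : bt d o => uniformOn (Set.univ : Set C)) (s := univ) (t := T) fun o _ => hT o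
  have hm : MeasurableSet (Set.pi (↑(univ : Finset (Option (Fin d)))) T) :=
    MeasurableSet.pi (Finset.countable_toSet _) fun o _ => hT o
  rw [← h2, Measure.map_apply (MeasurableEquiv.measurable _) hm, ← h1,
    Measure.map_apply (by fun_prop) (MeasurableEquiv.measurable _ hm), Fintype.prod_option] at h3
  have h4 : (Measure.infinitePi fun _ : bt d none => uniformOn (Set.univ : Set C)) (T none) =
      (Fintype.card C : ENNReal)⁻¹ := by
    rw [← Measure.map_apply (measurable_pi_apply _) (measurableSet_singleton c),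
      Measure.infinitePi_map_eval, uniformOn_univ]
    simp
  rw [h4] at h3
  have h5 : {σ : List (Fin d) → C | σ [] = c ∧ ∀ i, (fun l => σ (i :: l)) ∈ A i} =
      (fun ω i => ω (bf i)) ⁻¹' (MeasurableEquiv.piCurry (fun (o : Option (Fin d))
        (_ : bt d o) => C) ⁻¹' Set.pi (↑(univ : Finset (Option (Fin d)))) T) := by
    ext σ
    simp only [coe_univ, Set.mem_preimage, Set.mem_pi, Set.mem_univ, true_imp_iff, Option.forall]
    rfl
  rw [Measure.real, h5, PP, h3]
  simp [Measure.real]
  rfl

/-- measurability of a finitely-valued label -/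
def Ms {Ω α : Type} [MeasurableSpace Ω] (X : Ω → α) : Prop := ∀ a, MeasurableSet {σ | X σ = a}

theorem ms_root {d : ℕ} : Ms fun σ : List (Fin d) → C => σ [] := fun c =>
  measurable_pi_apply (X := fun _ => C) ([] : List (Fin d)) (measurableSet_singleton c)

theorem ms_pair {d : ℕ} {α : Type} {X : C → (List (Fin d) → C) → α} (hX : ∀ c, Ms (X c)) :
    Ms fun σ : List (Fin d) → C => (σ [], fun i => X (σ []) fun l => σ (i :: l)) := by
  rintro ⟨c, a⟩
  have : {σ : List (Fin d) → C | (σ [], fun i => X (σ []) fun l => σ (i :: l)) = (c, a)} =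
      {σ | σ [] = c} ∩ ⋂ i, (fun σ l => σ (i :: l)) ⁻¹' {τ | X c τ = a i} := by
    ext σ
    simp only [Prod.mk.injEq, Set.mem_ofPred_eq, Set.mem_inter_iff, Set.mem_iInter,
      Set.mem_preimage, funext_iff]
    exact and_congr_right fun h => by rw [h]
  rw [this]
  exact (measurable_pi_apply ([] : List (Fin d)) (measurableSet_singleton c)).inter
    (MeasurableSet.iInter fun i => (show Measurable fun (σ : List (Fin d) → C) l => σ (i :: l) by
      fun_prop) (hX c _))

theorem Ms.comp {Ω α β : Type} [MeasurableSpace Ω] [Finite α] {X : Ω → α} (hX : Ms X)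
    (F : α → β) : Ms fun σ => F (X σ) := by
  intro b
  have : {σ | F (X σ) = b} = ⋃ a ∈ {a | F a = b}, {σ | X σ = a} := by ext; simp
  rw [this]
  exact MeasurableSet.biUnion (Set.to_countable _) fun a _ => hX a

theorem law_step {d : ℕ} {α β : Type} [Fintype α] {X : C → (List (Fin d) → C) → α}
    (hX : ∀ c, Ms (X c)) {ρ : α → ℝ} (hρ : ∀ c a, (PP _ C).real {σ | X c σ = a} = ρ a)
    (F : C → (Fin d → α) → β) (b : β) :
    (PP _ C).real {σ | F (σ []) (fun i => X (σ []) fun l => σ (i :: l)) = b} =
      (Fintype.card C : ℝ)⁻¹ * ∑ c, ∑ a : Fin d → α,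
        (∏ i, ρ (a i)) * if F c a = b then 1 else 0 := by
  have h1 := sum_measureReal_preimage_singleton (μ := PP _ C)
    (univ.filter fun z : C × (Fin d → α) => F z.1 z.2 = b)
    (f := fun σ : List (Fin d) → C => (σ [], fun i => X (σ []) fun l => σ (i :: l)))
    fun z _ => ms_pair hX z
  have h2 : ∀ z : C × (Fin d → α), (PP _ C).real ((fun σ : List (Fin d) → C =>
      (σ [], fun i => X (σ []) fun l => σ (i :: l))) ⁻¹' {z}) =
      (Fintype.card C : ℝ)⁻¹ * ∏ i, ρ (z.2 i) := by
    rintro ⟨c, a⟩
    simp only [← hρ c]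
    rw [← prod_law c fun i => hX c (a i)]
    congr 1
    ext σ
    simp only [Set.mem_preimage, Set.mem_singleton_iff, Prod.mk.injEq, Set.mem_ofPred_eq,
      funext_iff]
    exact and_congr_right fun h => by rw [h]
  simp only [h2] at h1
  rw [← Fintype.sum_prod_type', mul_sum]
  simp only [mul_ite, mul_one, mul_zero]
  rw [← sum_filter, h1]
  congr 1
  ext σ
  simp

end law

section iter
variable {α S : Type}

def fo (add : S → α → S) : (m : ℕ) → (Fin m → α) → S → S
  | 0, _, s => s
  | m + 1, a, s => fo add m (fun i => a i.succ) (add s (a 0))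

noncomputable def It [Fintype α] (add : S → α → S) (ν : α → ℝ) (h : S → ℝ) : ℕ → S → ℝ
  | 0, s => h s
  | m + 1, s => ∑ a, ν a * It add ν h m (add s a)

theorem sum_fo [Fintype α] (add : S → α → S) (ν : α → ℝ) (h : S → ℝ) (m : ℕ) (s : S) :
    ∑ a : Fin m → α, (∏ i, ν (a i)) * h (fo add m a s) = It add ν h m s := by
  induction m generalizing s with
  | zero => simp [fo, It]
  | succ m ih =>
    rw [← (Fin.consEquiv fun _ => α).sum_comp, Fintype.sum_prod_type, It]
    refine sum_congr rfl fun a _ => ?_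
    rw [← ih, mul_sum]
    refine sum_congr rfl fun b _ => ?_
    simp [Fin.prod_univ_succ, fo, Fin.consEquiv, mul_assoc]

end iter

end Pool.Agent.P.MP_5517c4_pr
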