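import Pool.Agent.P.MP_5517c4_pr.Tree
import Pool.Agent.P.MP_5517c4_pr.Defs

set_option autoImplicit false
set_option linter.unusedSectionVars false

namespace Pool.Agent.P.MP_5517c4_pr

open Finset MeasureTheory ProbabilityTheory Filter
open scoped Classical

theorem fo_count {α : Type} (P : α → Prop) [DecidablePred P] (m : ℕ) (a : Fin m → α) (s : ℕ) :
    fo (fun s a => s + if P a then 1 else 0) m a s = s + (univ.filter fun i => P (a i)).card := by
  induction m generalizing s with
  | zero => simp [fo]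
  | succ m ih => rw [fo, ih, Fin.card_filter_univ_succ', add_assoc]

variable {d κ : ℕ} [NeZero κ]

noncomputable def gF (j : ℕ) (c : ZMod κ) (a : Fin d → Bool) : Bool :=
  decide ((j = 0 → c = 0) ∧ 2 ≤ (univ.filter fun i => a i = true).card)

noncomputable def gA : ℕ → (List (Fin d) → ZMod κ) → Bool
  | 0, σ => decide (σ [] = 1)
  | j + 1, σ => gF j (σ []) fun i => gA j fun l => σ (i :: l)

theorem ms_gA (j : ℕ) : Ms (gA (d := d) (κ := κ) j) := by
  induction j with
  | zero =>
    exact ms_root.comp fun c => decide (c = 1)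
  | succ j ih => exact (ms_pair (X := fun _ => gA j) fun _ => ih).comp fun z => gF j z.1 z.2

noncomputable def gq (d κ j : ℕ) : ℝ := (PP (List (Fin d)) (ZMod κ)).real {σ | gA j σ = true}

theorem gq_zero : gq d κ 0 = (κ : ℝ)⁻¹ := by
  have := prod_law (d := d) (1 : ZMod κ) (A := fun _ => Set.univ) fun _ => MeasurableSet.univ
  simpa [gq, gA] using this

theorem gq_succ (hd : d = 3 ∨ d = 4) (j : ℕ) : gq d κ (j + 1) ≤ (if j = 0 then (κ : ℝ)⁻¹ else 1) *
    (6 * gq d κ j ^ 2 - 8 * gq d κ j ^ 3 + 3 * gq d κ j ^ 4) := by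
  set x := gq d κ j with hx
  have h1 := law_step (d := d) (X := fun _ : ZMod κ => gA j) (fun _ => ms_gA j)
    (ρ := fun b => if b then x else 1 - x) (fun _ b => by
      cases b
      · have := measureReal_compl (μ := PP (List (Fin d)) (ZMod κ)) (ms_gA (d := d) j true)
        simp only [Set.compl_ofPred, Bool.not_eq_true, probReal_univ] at this
        simpa [hx, gq] using this
      · rfl) (gF j) true
  have h2 : ∑ a : Fin d → Bool, (∏ i, if a i then x else 1 - x) *
      (if 2 ≤ (univ.filter fun i => a i = true).card then 1 else 0) ≤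
      6 * x ^ 2 - 8 * x ^ 3 + 3 * x ^ 4 := by
    have h3 := sum_fo (fun s (a : Bool) => s + if a = true then 1 else 0)
      (fun b => if b then x else 1 - x) (fun s => if 2 ≤ s then 1 else 0) d 0
    simp only [fo_count, zero_add] at h3
    refine le_of_eq_of_le (by convert h3) ?_
    rcases hd with rfl | rfl
    · simp [It]; nlinarith [sq_nonneg (x * (1 - x))]
    · simp [It]; nlinarith
  have hκ : (κ : ℝ) ≠ 0 := Nat.cast_ne_zero.2 (NeZero.ne κ)
  refine le_of_eq_of_le h1 ?_
  simp only [gF, decide_eq_true_eq, ZMod.card]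
  split_ifs with hj
  · refine mul_le_mul_of_nonneg_left ?_ (by positivity)
    rw [sum_eq_single 0 (fun c _ hc => by simp [hj, hc]) (by simp)]
    simpa using h2
  · simp only [hj, false_imp_iff, true_and, sum_const, card_univ, ZMod.card, nsmul_eq_mul]
    rw [← mul_assoc, inv_mul_cancel₀ hκ]
    exact mul_le_mul_of_nonneg_left h2 zero_le_one

theorem gq_le (hd : d = 3 ∨ d = 4) (hκ : 3 ≤ κ) (j : ℕ) :
    gq d κ (j + 1) ≤ 11 / 81 * (22 / 27) ^ j := by
  induction j with
  | zero =>
    have h := gq_succ (κ := κ) hd 0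
    rw [if_pos rfl, gq_zero] at h
    have h0 : (0 : ℝ) ≤ (κ : ℝ)⁻¹ := by positivity
    have h1 : (κ : ℝ)⁻¹ ≤ 1 / 3 := by
      rw [one_div]; exact inv_anti₀ (by norm_num) (by exact_mod_cast hκ)
    set x := (κ : ℝ)⁻¹
    have h2 : 0 ≤ (1 / 3 - x) * (3 * x ^ 4 + x ^ 2 * (11 / 3 - 7 * x) + 11 / 9 * x + 11 / 27) :=
      mul_nonneg (by linarith) (by have : 0 ≤ 11 / 3 - 7 * x := by linarith
                                   positivity)
    linarith
  | succ j ih =>
    have h := gq_succ (κ := κ) hd (j + 1)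
    rw [if_neg (by omega), one_mul] at h
    have h0 : 0 ≤ gq d κ (j + 1) := measureReal_nonneg
    have h1 : ((22 : ℝ) / 27) ^ j ≤ 1 := pow_le_one₀ (by norm_num) (by norm_num)
    set x := gq d κ (j + 1)
    have h2 : x ≤ 11 / 81 := by linarith
    have h3 : 0 ≤ x ^ 3 * (8 - 3 * x) := mul_nonneg (by positivity) (by linarith)
    have h4 : 0 ≤ x * (11 / 81 - x) := mul_nonneg h0 (by linarith)
    rw [pow_succ]
    nlinarith

variable {V : Type} {G : SimpleGraph V}

theorem ghm_one {γ : V → ZMod κ} {w : V} (h : ghmStep G κ 2 γ w = 1) (h1 : (1 : ZMod κ) ≠ 0) :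
    γ w = 0 ∧ 2 ≤ {u | G.Adj w u ∧ γ u = 1}.ncard := by
  rw [ghmStep] at h
  split_ifs at h with h2 h3
  · exact absurd (by simpa using h) h2
  · exact ⟨not_not.1 h2, h3⟩
  · exact absurd h.symm h1

theorem gA_sem (hd : ∀ v, (G.neighborSet v).ncard = d + 1) (h1 : (1 : ZMod κ) ≠ 0)
    (h2 : (1 + 1 : ZMod κ) ≠ 0) (γ : V → ZMod κ) (j : ℕ) : ∀ p w, G.Adj p w →
      (ghmStep G κ 2)^[j] γ w = 1 → (ghmStep G κ 2)^[j] γ p = 0 →
        gA j (fun l => γ (emb G d p w l)) = true := by
  induction j with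
  | zero => intro p w _ h _; simpa [gA, emb] using h
  | succ j ih =>
    intro p w hpw hw hp
    rw [Function.iterate_succ_apply'] at hw hp
    obtain ⟨k1, k2⟩ := ghm_one hw h1
    have k3 : (ghmStep G κ 2)^[j] γ p ≠ 1 := fun e => by
      rw [ghmStep, e, if_pos h1] at hp; exact h2 hp
    rw [ncard_nbr hd hpw, if_neg k3, zero_add] at k2
    simp only [gA, gF, decide_eq_true_eq]
    refine ⟨fun e => by subst e; exact k1, k2.trans (card_le_card fun i hi => ?_)⟩
    simp only [mem_filter, mem_univ, true_and] at hi ⊢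
    exact ih _ _ (ch_adj hd hpw i).1 hi k1

theorem ghm_fix (hd : d = 3 ∨ d = 4) (hκ : 3 ≤ κ) (hG : G.IsTree)
    (hr : ∀ v, (G.neighborSet v).ncard = d + 1) :
    ∀ᵐ γ ∂PP V (ZMod κ), ∀ v, ∀ᶠ t in atTop, (ghmStep G κ 2)^[t] γ v = 0 := by
  have := countable_of hG.connected hr
  have h1 : (1 : ZMod κ) ≠ 0 := by
    have : Fact (1 < κ) := ⟨by omega⟩
    exact one_ne_zero
  have h2 : (1 + 1 : ZMod κ) ≠ 0 := by
    have : ((2 : ℕ) : ZMod κ) ≠ 0 := fun h => by
      have := Nat.le_of_dvd (by norm_num) ((ZMod.natCast_eq_zero_iff _ _).1 h); omega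
    rwa [Nat.cast_ofNat, ← one_add_one_eq_two] at this
  have key : ∀ p w, ∀ᵐ γ ∂PP V (ZMod κ), G.Adj p w →
      ∀ᶠ t in atTop, ¬ gA (t + 1) (fun l => γ (emb G d p w l)) = true := by
    intro p w
    by_cases h : G.Adj p w
    · have hs : Summable fun j : ℕ => (11 / 81 : ℝ) * (22 / 27) ^ j :=
        (summable_geometric_of_lt_one (by norm_num) (by norm_num)).mul_left _
      have := ae_eventually_notMem (μ := PP V (ZMod κ))
        (s := fun t => {γ | (fun l => γ (emb G d p w l)) ∈ {σ | gA (t + 1) σ = true}})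
        (ne_top_of_le_ne_top hs.tsum_ofReal_ne_top (ENNReal.tsum_le_tsum fun t => by
          rw [pull_le hG.isAcyclic hr h (ms_gA _ _), ← ofReal_measureReal]
          exact ENNReal.ofReal_le_ofReal (gq_le hd hκ t)))
      exact this.mono fun γ hγ _ => hγ
    · exact ae_of_all _ fun _ h' => absurd h' h
  filter_upwards [ae_all_iff.2 fun p => ae_all_iff.2 (key p)] with γ hγ v
  obtain ⟨p, hp⟩ := exists_adj hr v
  obtain ⟨T, hT⟩ := eventually_atTop.1
    (eventually_all.2 fun i => hγ v _ (ch_adj hr hp i).1)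
  have k1 : ∀ t, T + 2 ≤ t → (ghmStep G κ 2)^[t] γ v ≠ 1 := by
    intro t ht e
    obtain ⟨s, rfl⟩ : ∃ s, t = s + 1 + 1 := ⟨t - 2, by omega⟩
    rw [Function.iterate_succ_apply'] at e
    obtain ⟨k2, k3⟩ := ghm_one e h1
    rw [ncard_nbr hr hp] at k3
    obtain ⟨i, hi⟩ : (univ.filter fun i =>
        (ghmStep G κ 2)^[s + 1] γ (ch G d p v i) = 1).Nonempty := by
      rw [← card_pos]; split_ifs at k3 <;> omega
    exact hT s (by omega) i (gA_sem hr h1 h2 γ _ _ _ (ch_adj hr hp i).1 (mem_filter.1 hi).2 k2)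
  have k2 : ∃ t, T + 2 ≤ t ∧ (ghmStep G κ 2)^[t] γ v = 0 := by
    by_contra hcon
    push Not at hcon
    have : ∀ s : ℕ, (ghmStep G κ 2)^[T + 2 + s] γ v = (ghmStep G κ 2)^[T + 2] γ v + s := by
      intro s
      induction s with
      | zero => simp
      | succ s ih =>
        rw [← add_assoc, Function.iterate_succ_apply', ghmStep, if_pos (hcon _ (by omega)), ih]
        push_cast; ring
    exact hcon _ (Nat.le_add_right _ (-(ghmStep G κ 2)^[T + 2] γ v).val) (by rw [this]; simp)
  obtain ⟨t, ht, e⟩ := k2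
  refine eventually_atTop.2 ⟨t, fun s hs => ?_⟩
  induction s, hs using Nat.le_induction with
  | base => exact e
  | succ s hs ih =>
    have := k1 (s + 1) (by omega)
    rw [Function.iterate_succ_apply', ghmStep, if_neg (not_not.2 ih)] at this ⊢
    split_ifs at this ⊢ with h3
    exacts [absurd rfl this, rfl]

end Pool.Agent.P.MP_5517c4_pr
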